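import Pool.Agent.V11168.Pair.CP

/-!
# The Campana-Peternell inequality on quotients of fibre spaces with closed logarithmic 1-forms

Let `Z → B` be an algebraic fibre space of projective varieties, `dim B = d`, `dim Z = d + (r + 1)`,
with the function fields `M ⊂ L` (`B` may be a point), `Δ_B` a divisor on `B` with multiplicities at
most `1` such that `K_B + Δ_B` is of general type, `G` a finite group of birational automorphisms of `Z`
(it need not preserve the map to `B`), and `(X, Δ)` a log canonical pair with `X` birational to `Z / G`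
(for instance `X` a projective manifold and `Δ = 0`); the function field of `X` is the field of
invariants `fixedField G`. `Δ` is given by its multiplicities `δ v = max (0, -a (v, X, Δ)) ≤ 1` along
all prime divisors `v` over `X`, where `a (v, X, Δ)` is the discrepancy. The sections of `m (K_X + Δ)`
are the `m`-fold pluricanonical forms on the function field with pole order at most `m δ v` at all `v`
(`PairSec`).

Let `V` be a space of closed rational 1-forms on `Z`, preserved by `G`, which are regular except for
logarithmic poles along the prime divisors `w` over `Z` which lie over prime divisors `v` over `X` with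
`δ v = 1` (`IsLogForm`), and such that `r + 1` of them are linearly independent on the general fibre
(`IndepOver`). `W = constFields (fibreForms M V)` is the space of the vector fields on the generic fibre
on which all forms in `V` are constant; they are assumed to be regular on a projective model of the
generic fibre (`IsRegularOnModel`). For example `Z → B × A` is generically finite onto its image, where
`A` is a semiabelian variety, and `V` is the space of the pull-backs of the invariant forms of `A`.

* `BaseBound`: if `w` is not ramified over `v`, `δ v < 1`, and `w` lies over the prime divisor `u` over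
  `B` with multiplicity `c`, then `1 - δ v ≤ c (1 - δB u)`.
* `ReidTaiPair` (weighted condition of Reid-Tai type): if `w` has ramification index `e ≥ 2` over `v`
  with `δ v < 1`, `g` in `G`, of order `e`, fixes `w` pointwise, and `θ 1, ..., θ (r + 1)` in `V`,
  independent on the general fibre, are eigenvectors of `g` with the eigenvalues `ζ ^ a i`,
  `0 ≤ a i < e`, `ζ` a primitive `e`-th root of unity, then
  `c (1 - δB u) + a 1 + ... + a (r + 1) ≥ e (1 - δ v)`, where `c = 0` if `w` dominates `B`, and `w`
  lies over `u` with multiplicity `c` otherwise.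
* `TangentBd`: if `w` dominates the base of the fibration given by the vector fields in `W` (all
  functions which they kill have order zero along `w`), and has ramification index `e` over `v`, then
  `δ v ≤ 1 - 1 / e`, or all the vector fields in `W` are tangent to `w`.
-/

set_option autoImplicit false

open FF IntermediateField Pool.Agent.W619.PQ Pool.Agent.W619.TW Pool.Agent.W619.Y
  Pool.Agent.Y173.QA Pool.Agent.Y173.QM Pool.Agent.Y174 Pool.Agent.V11168.Rel
  Pool.Agent.V11168.Pair

namespace Pool.Agent.Results.MP_370cf3_ag.LogQuotientPairs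

/-- **Theorem.** Let `Z → B`, `M ⊂ L`, `Δ_B`, `G`, `(X, Δ)` and `V` be as above, and let `A` be a
divisor on `X`, with the multiplicity `α v` along the prime divisors `v` over `X`, such that
`q (K_X + Δ) - A` is pseudo-effective for some `q ≥ 1` (`PairPsef`). Then
`κ (K_X + Δ) ≥ κ (A)`: if `κ (A) ≥ h` (`DivKod`) then `κ (K_X + Δ) ≥ h` (`PairKod`). -/
theorem result {L : Type} [Field L] [Algebra ℂ L] [Algebra.EssFiniteType ℂ L]
    -- the base
    (M : IntermediateField ℂ L) [Algebra.EssFiniteType ℂ M]
    (hMcl : ∀ x : L, IsAlgebraic M x → x ∈ M) {d r : ℕ}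
    (hM : Algebra.trdeg ℂ M = d) (hn : Algebra.trdeg ℂ L = (d + (r + 1) : ℕ))
    {δB : Place ℂ M → ℝ} (hB : ∀ u, δB u ≤ 1) (hgt : PairKod ℂ M d δB d)
    -- the group and the pair
    (G : Subgroup (L ≃ₐ[ℂ] L)) [Finite G]
    {δ : Place ℂ (fixedField G) → ℝ} (hδ0 : ∀ v, 0 ≤ δ v) (hδ1 : ∀ v, δ v ≤ 1)
    {T : Finset (fixedField G)}
    (hT : ∀ v : Place ℂ (fixedField G), IsDivisorial v (d + (r + 1)) →
      ∃ g ∈ T, g ≠ 0 ∧ δ v ≤ (v.ord g : ℝ))
    -- the forms
    (V : Submodule ℂ (Derivation ℂ L L →ₗ[L] L))
    (hlog : ∀ θ ∈ V, IsLogForm (d + (r + 1)) (BdOn fun v => δ v = 1) θ)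
    (hcl : ∀ θ ∈ V, IsClosedForm θ)
    (hstab : ∀ g ∈ G, ∀ θ ∈ V, ∃ θ' ∈ V, IsImage g θ θ')
    (hind : ∃ θ : Fin (r + 1) → Derivation ℂ L L →ₗ[L] L, (∀ i, θ i ∈ V) ∧
      IndepOver (m := d) M θ)
    -- the conditions on the divisors
    (hBX : BaseBound (d + (r + 1)) G M (fun v => δ v = 1) δ δB)
    (hRT : ReidTaiPair d (r + 1) G M V (fun v => δ v = 1) δ δB)
    (hmod : IsRegularOnModel (constFields (fibreForms M V)))
    (htan : TangentBd (d + (r + 1)) G M (constFields (fibreForms M V)) δ)
    -- the divisor `A`
    {α : Place ℂ (fixedField G) → ℝ} {q : ℕ} (hq : 1 ≤ q)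
    (hps : PairPsef ℂ (fixedField G) (d + (r + 1)) δ q α) {h : ℕ}
    (hA : DivKod ℂ (fixedField G) (d + (r + 1)) α h) :
    PairKod ℂ (fixedField G) (d + (r + 1)) δ h := by
  have _ := hδ1
  obtain ⟨θ, hθ, hθi⟩ := hind
  obtain ⟨a, ha, h1, h2⟩ := pair_main hMcl hM hn G hδ0 (Bd := fun v => δ v = 1)
    (fun v hv => hv.ge) hT hlog hcl hstab hB hBX hRT hθ hθi
  exact cp_pair (h1 d hgt) (h2 hmod htan) hq hps hA

end Pool.Agent.Results.MP_370cf3_ag.LogQuotientPairs
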