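import Pool.Agent.V5SU.CP

/-!
# The Campana-Peternell inequality for fibre products of families of superelliptic curves over a
variety of log general type

Let `V` be any variety of dimension `p` with the function field `K0`, `y 0, …, y n` nonzero rational
functions on `V` whose ratios define a generically finite map of `V` to projective space, and `B` any
set of prime divisors over `V`, such that the complement of `B` and of the zeros and poles of the
ratios `y i / y j` is of log general type; there is no condition on the singularities of these
divisors, and the Kodaira dimension of `V` itself is arbitrary, it is `-∞` for instance if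
`V = ℙ^p`. There is a number `μ` which depends only on these data, such that the following holds for
all projective varieties `X` with canonical singularities (for instance projective manifolds) of any
dimension `p + e`, with a dominant rational map `X ⇢ V`, such that:

* (the base) for every prime divisor `P` of `X` which does not dominate `V`: either the orders of two
  of the functions `y i` along `P` differ by at least `μ`, or all `y i` have the same order along `P`,
  and the ramification index of `P` over `V` is at least `2` if `P` lies over a prime divisor in `B`;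
* (the fibres) `X` is birational to the fibre product over `V'` of `e` arbitrary cyclic covers of
  `V' × P^1`, where the function field `F` of `V'` is the algebraic closure of `ℂ(V)` in `ℂ(X)`; that
  is, `ℂ(X)` is generated over `F` by `x j`, `z j`, `j < e`, the `x j` are algebraically independent
  over `F`, and

  `z j ^ m j = c j * ∏ k, g j k (x j) ^ a j k`, `m j ≥ 1`, `a j k ≥ 0`, `c j ≠ 0` in `F`,

  where the `g j k` are polynomials over `F`, `g j k` of degree `d j k`, square free and pairwise
  without common roots (for given `j`).

Then the Campana-Peternell inequality holds on `X`: if `K_X` is the sum of an effective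
`ℚ`-divisor `D` and a pseudo-effective `ℚ`-divisor, then `κ(X) ≥ κ(D)`. Here `D` is any effective
`ℚ`-divisor on `X`, with no relation to the fibration or to the curves. More precisely, let
`W j = ∑ k, d j k * (1 - gcd (m j, a j k) / m j) + 1 - gcd (m j, ∑ k, a j k * d j k) / m j`; if `C j`
is the curve over `F` given by the `j`-th equation, of genus `g j`, and of degree `n j` over the line,
then `2 g j - 2 = n j * (W j - 2)`. If there is such a `D` then `W j ≥ 2` for all `j` and `κ(X)` is `p`
plus the number of the `j` with `W j > 2`; `κ(X)` may be any number between `p` and `dim X`. The moduli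
of the curves may vary.

The language and the definitions of `Pool.Agent.Y172` are used: `X` is given by the homogeneous
coordinates `v` of its generic point, with values in the function field `K` of `X`; the prime divisors
of `X` are places `P` of `K`, `P.ord` is the order along `P`.

Proof: `Pool.Agent.V1157.KL.cyc_lgt` gives `κ(X)`. If `K_X - D` is pseudo-effective then products of
the sections of multiples of `D` with sections of `t (K_X - D) + H` are sections of `t K_X + H`; the
number of these is bounded by the expansion along the fibres (`Pool.Agent.V5SU.cyc_cp`), which also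
shows that `K_X - D` is not pseudo-effective if some `W j < 2`.
-/

set_option autoImplicit false

open FF Pool.Agent.W602.GT Pool.Agent.Y172 Pool.Agent.Y191 Pool.Agent.V1157.KL

namespace Pool.Agent.Results.MP_370cf3_ag.SuperellipticFibres

section

variable {K : Type} [Field K] [Algebra ℂ K] {N : ℕ}

/-- `X` is a projective variety of dimension `n` with canonical singularities, `v` is its generic
point. -/
def IsCanonicalVariety (v : Fin (N + 1) → K) (n : ℕ) : Prop :=
  NormalModel v ∧ Algebra.trdeg ℂ K = n ∧ Canonical v n

/-- The prime divisors of `X` dominate the variety `V` with the function field `K0`, or satisfy the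
condition on the multiplicities. -/
def HighOver (K0 : Type) [Field K0] [Algebra ℂ K0] [Algebra K0 K] {n : ℕ} (y : Fin (n + 1) → K0)
    (B : Place ℂ K0 → Prop) (μ : ℕ) (v : Fin (N + 1) → K) : Prop :=
  ∀ P, IsPrimeDivisor v P → (∀ g : K0, P.ord (algebraMap K0 K g) = 0) ∨ Mult y B μ P 0

/-- Let `F` be the algebraic closure of `L` in `K`. The field `K` is generated over `F` by elements
`x j`, `z j` with `z j ^ m j = c j * ∏ k, g j k (x j) ^ a j k`, where the `x j` are algebraically
independent over `F`, `m j ≥ 1`, `c j` is a nonzero element of `F`, and the `g j k` are polynomials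
over `F` of degree `d j k`, square free and pairwise without common roots for given `j`. -/
def CyclicFibres (L : IntermediateField ℂ K) {e : ℕ} (m s : Fin e → ℕ)
    (d a : ∀ j, Fin (s j) → ℕ) : Prop :=
  ∃ (x z c : Fin e → K) (g : ∀ j, Fin (s j) → Polynomial (acl ℂ (L : Set K))),
    CycData (acl ℂ (L : Set K)) x z m s g a c ∧ ∀ j k, (g j k).natDegree = d j k

/-- The Campana-Peternell inequality: if `D` is an effective `ℚ`-divisor on `X` such that
`K_X - D` is pseudo-effective, then `κ(D) ≤ κ(X)`. -/
def CampanaPeternell (v : Fin (N + 1) → K) (n : ℕ) : Prop :=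
  ∀ D : Place ℂ K → ℚ, Effective v D → PsefSub v n 0 D →
    ∀ h : ℕ, IitakaGe v D h → (h : WithBot ℕ) ≤ kodairaDim v n 0

end

/-- `W = ∑ k, d k * (1 - gcd (m, a k) / m) + 1 - gcd (m, ∑ k, a k * d k) / m` -/
def weight (m : ℕ) {s : ℕ} (d a : Fin s → ℕ) : ℚ :=
  ∑ k, d k * (1 - (m.gcd (a k) : ℚ) / m) + (1 - (m.gcd (∑ k, a k * d k) : ℚ) / m)

theorem wsum_eq {K : Type} [Field K] [Algebra ℂ K] {F : IntermediateField ℂ K} {e : ℕ}
    {m s : Fin e → ℕ} {g : ∀ j, Fin (s j) → Polynomial F} {a d : ∀ j, Fin (s j) → ℕ}
    (hd : ∀ j k, (g j k).natDegree = d j k) (j : Fin e) :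
    wsum m s g a j = weight (m j) (d j) (a j) := by
  unfold wsum weight wtc
  simp only [hd]

/-- **The Campana-Peternell inequality.** Let `K0` be the function field of a variety `V` of dimension
`p`, let `y i` be nonzero elements of `K0` such that `K0` is algebraic over the field generated by
their ratios, and let `B` be a set of places, such that the complement in `V` of the prime divisors in
`B` and of the zeros and poles of the ratios is of log general type. Then there is a number `μ` such
that for all projective varieties `X` of dimension `p + e` with canonical singularities, with a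
dominant rational map `X ⇢ V`, such that the prime divisors of `X` dominate `V` or satisfy the
condition on the multiplicities (`HighOver`), and fibres as in `CyclicFibres`:
(a) `κ(D) ≤ κ(X)` for all effective `ℚ`-divisors `D` on `X` with `K_X - D` pseudo-effective;
(b) if there is such a `D` then `W j ≥ 2` for all `j`, and `κ(X)` is `p` plus the number of the `j`
with `W j > 2`. -/
theorem result (K0 : Type) [Field K0] [Algebra ℂ K0] [Algebra.EssFiniteType ℂ K0] (n p : ℕ)
    (y : Fin (n + 1) → K0) (B : Place ℂ K0 → Prop) (hy : ∀ i, y i ≠ 0)
    (halg : ∀ z : K0, IsAlgebraic (IntermediateField.adjoin ℂ (Set.range fun i => y i / y 0)) z)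
    (hgt : LogGeneralType ℂ K0 p (fun P => (∃ i, P.ord (y i) ≠ P.ord (y 0)) ∨ B P)) :
    ∃ μ : ℕ, ∀ (K : Type) [Field K] [Algebra ℂ K] [Algebra K0 K] [IsScalarTower ℂ K0 K]
      (N e : ℕ) (m s : Fin e → ℕ) (d a : ∀ j, Fin (s j) → ℕ) (v : Fin (N + 1) → K),
      IsCanonicalVariety v (p + e) → HighOver K0 y B μ v → CyclicFibres (img K0 K) m s d a →
      CampanaPeternell v (p + e) ∧
      ∀ D : Place ℂ K → ℚ, Effective v D → PsefSub v (p + e) 0 D →
        (∀ j, 2 ≤ weight (m j) (d j) (a j)) ∧ kodairaDim v (p + e) 0 =
          ((p + (Finset.univ.filter fun j => 2 < weight (m j) (d j) (a j)).card : ℕ) :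
            WithBot ℕ) := by
  obtain ⟨μ, hμ⟩ := cyc_lgt K0 n p y B hy halg hgt
  refine ⟨μ, ?_⟩
  rintro K _ _ _ _ N e m s d a v ⟨hv, hn, hcan⟩ hH ⟨x, z, c, g, hc, hd⟩
  have h2 := (hμ K N e v hv hn hcan hH m s x z c a g hc).2
  have h3 : ∀ D : Place ℂ K → ℚ, Effective v D → PsefSub v (p + e) 0 D → _ := fun D hD hps =>
    Pool.Agent.V5SU.cyc_cp hv hn hcan (acl_closed (img K0 K : Set K)) hc (Nat.le_add_left e p)
      hD hps
  simp only [wsum_eq hd] at h2 h3
  refine ⟨fun D hD hps h hh => ?_, fun D hD hps => ?_⟩
  · obtain ⟨h4, h5⟩ := h3 D hD hps
    rw [(h2 h4).1]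
    have h6 := h5 h hh
    rw [Pool.Agent.V5SU.card_two _ h4] at h6
    exact_mod_cast h6
  · obtain ⟨h4, h5⟩ := h3 D hD hps
    exact ⟨h4, (h2 h4).1⟩

end Pool.Agent.Results.MP_370cf3_ag.SuperellipticFibres
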